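import Mathlib

set_option autoImplicit false
open Polynomial Finset

namespace Pool.Agent.Lib.MP_4c66eb_an

/-- rising factorial of a complex number -/
noncomputable def rf (z : ℂ) (k : ℕ) : ℂ := ∏ i ∈ range k, (z + i)

lemma rf_zero (z : ℂ) : rf z 0 = 1 := by simp [rf]

lemma rf_succ (z : ℂ) (k : ℕ) : rf z (k + 1) = rf z k * (z + k) := by
  simp [rf, prod_range_succ]

lemma rf_succ' (z : ℂ) (k : ℕ) : rf z (k + 1) = z * rf (z + 1) k := by
  unfold rf
  rw [prod_range_succ', mul_comm]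
  congr 1
  · simp
  · apply prod_congr rfl
    intro i _
    push_cast
    ring

lemma rf_add (z : ℂ) (a b : ℕ) : rf z (a + b) = rf z a * rf (z + a) b := by
  induction b with
  | zero => simp [rf_zero]
  | succ b ih =>
    rw [← add_assoc, rf_succ, ih, rf_succ]
    push_cast
    ring

lemma rf_eval (z : ℂ) (k : ℕ) : (ascPochhammer ℂ k).eval z = rf z k := by
  induction k with
  | zero => simp [rf_zero]
  | succ k ih => rw [ascPochhammer_succ_eval, ih, rf_succ]

/-- duplication -/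
lemma rf_two_mul (u : ℂ) (j : ℕ) :
    rf (2 * u) (2 * j) = 4 ^ j * rf u j * rf (u + 1 / 2) j := by
  induction j with
  | zero => simp [rf_zero]
  | succ j ih =>
    rw [show 2 * (j + 1) = 2 * j + 1 + 1 by ring, rf_succ, rf_succ, ih, rf_succ, rf_succ]
    push_cast
    ring

lemma rf_two_mul_add (u : ℂ) (j e : ℕ) (he : e < 2) :
    rf (2 * u) (2 * j + e) = 2 ^ e * 4 ^ j * rf u (j + e) * rf (u + 1 / 2) j := by
  interval_cases e
  · simp [rf_two_mul]
  · rw [rf_succ, rf_two_mul, rf_succ]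
    push_cast
    ring

/-- The linear functional `X^k ↦ (z)_k (w)_{n-k}`. -/
noncomputable def Lam (n : ℕ) (z w : ℂ) (p : ℂ[X]) : ℂ :=
  ∑ k ∈ range (n + 1), p.coeff k * (rf z k * rf w (n - k))

lemma Lam_C_mul (n : ℕ) (z w c : ℂ) (p : ℂ[X]) :
    Lam n z w (C c * p) = c * Lam n z w p := by
  unfold Lam
  rw [mul_sum]
  apply sum_congr rfl
  intro k _
  rw [coeff_C_mul]
  ring

lemma Lam_sum (n : ℕ) (z w : ℂ) {ι : Type} (s : Finset ι) (p : ι → ℂ[X]) :
    Lam n z w (∑ i ∈ s, p i) = ∑ i ∈ s, Lam n z w (p i) := by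
  unfold Lam
  rw [sum_comm]
  apply sum_congr rfl
  intro k _
  rw [finsetSum_coeff, sum_mul]

lemma Lam_one_add_mul (n : ℕ) (z w : ℂ) (p : ℂ[X]) (hp : p.natDegree ≤ n) :
    Lam (n + 1) z w ((1 + X) * p) = (z + w + n) * Lam n z w p := by
  have h1 : Lam (n + 1) z w ((1 + X) * p) =
      ∑ k ∈ range (n + 2), p.coeff k * (rf z k * rf w (n + 1 - k)) +
      ∑ k ∈ range (n + 1), p.coeff k * (rf z (k + 1) * rf w (n - k)) := by
    unfold Lam
    have : ∀ k, ((1 + X) * p).coeff k = p.coeff k + (X * p).coeff k := by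
      intro k
      rw [add_mul, one_mul, coeff_add]
    simp_rw [this, add_mul]
    rw [sum_add_distrib]
    congr 1
    rw [sum_range_succ']
    simp only [coeff_X_mul, coeff_X_mul_zero, zero_mul, add_zero]
    apply sum_congr rfl
    intro k _
    rw [Nat.add_sub_add_right]
  rw [h1, sum_range_succ, coeff_eq_zero_of_natDegree_lt (by omega : p.natDegree < n + 1)]
  unfold Lam
  rw [mul_sum, zero_mul, add_zero, ← sum_add_distrib]
  apply sum_congr rfl
  intro k hk
  have hk' : k ≤ n := by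
    rw [mem_range] at hk
    omega
  rw [Nat.succ_sub hk', rf_succ, rf_succ, Nat.cast_sub hk']
  ring

lemma natDegree_basis (i j : ℕ) : ((1 + X : ℂ[X]) ^ j * X ^ i).natDegree ≤ 2 * i + j := by
  have h1 : ((1 + X : ℂ[X]) ^ j).natDegree ≤ j := by
    refine le_trans natDegree_pow_le ?_
    have : (1 + X : ℂ[X]).natDegree ≤ 1 := by
      refine le_trans (natDegree_add_le _ _) ?_
      simp
    nlinarith
  have h2 : ((X : ℂ[X]) ^ i).natDegree ≤ i := by simp
  refine le_trans natDegree_mul_le ?_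
  omega

lemma Lam_basis (i j : ℕ) (z w : ℂ) :
    Lam (2 * i + j) z w ((1 + X) ^ j * X ^ i) =
      rf z i * rf w i * rf (z + w + 2 * i) j := by
  induction j with
  | zero =>
    unfold Lam
    rw [sum_eq_single i]
    · simp [rf_zero, show 2 * i - i = i by omega]
    · intro k _ hk
      simp [coeff_X_pow, hk]
    · intro h
      exfalso
      apply h
      rw [mem_range]
      omega
  | succ j ih =>
    rw [← add_assoc, pow_succ', mul_assoc, Lam_one_add_mul _ _ _ _ (natDegree_basis i j), ih,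
      rf_succ]
    push_cast
    ring

/-- palindromic polynomials in the basis `X^i (1+X)^(n-2i)` -/
lemma pal (n : ℕ) : ∀ Q : ℂ[X], Q.natDegree ≤ n → (∀ k ≤ n, Q.coeff k = Q.coeff (n - k)) →
    ∃ a : ℕ → ℂ, Q = ∑ i ∈ range (n / 2 + 1), C (a i) * ((1 + X) ^ (n - 2 * i) * X ^ i) := by
  induction n using Nat.twoStepInduction with
  | zero =>
    intro Q hQ _
    refine ⟨fun _ => Q.coeff 0, ?_⟩
    simp only [Nat.zero_div, zero_add, range_one, sum_singleton, mul_zero, Nat.sub_zero, pow_zero,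
      mul_one]
    exact eq_C_of_natDegree_le_zero hQ
  | one =>
    intro Q hQ hpal
    refine ⟨fun _ => Q.coeff 0, ?_⟩
    have h := hpal 0 (by norm_num)
    have h1 := Polynomial.exists_eq_X_add_C_of_natDegree_le_one hQ
    simp only [Nat.reduceDiv, zero_add, range_one, sum_singleton, mul_zero, Nat.sub_zero, pow_zero,
      mul_one, pow_one]
    obtain ⟨a, b, hab⟩ := h1
    have h0 : Q.coeff 0 = b := by rw [hab]; simp
    have h1 : Q.coeff 1 = a := by rw [hab]; simp
    rw [h0]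
    rw [h0] at h
    norm_num at h
    rw [h1] at h
    rw [hab, ← h]
    ring
  | more n ih _ =>
    intro Q hQ hpal
    set Q1 : ℂ[X] := Q - C (Q.coeff 0) * (1 + X) ^ (n + 2) with hQ1
    have hdeg : ((1 + X : ℂ[X]) ^ (n + 2)).natDegree ≤ n + 2 := by
      have := natDegree_basis 0 (n + 2)
      simpa using this
    have hc : ∀ k, ((1 + X : ℂ[X]) ^ (n + 2)).coeff k = ((n + 2).choose k : ℂ) := by
      intro k
      rw [coeff_one_add_X_pow]
    have hc1 : ∀ k, Q1.coeff k = Q.coeff k - Q.coeff 0 * ((n + 2).choose k : ℂ) := by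
      intro k
      rw [hQ1, coeff_sub, coeff_C_mul, hc]
    have h0 : Q1.coeff 0 = 0 := by rw [hc1]; simp
    obtain ⟨Q2, hQ2⟩ := X_dvd_iff.mpr h0
    have hcc : ∀ k, Q2.coeff k = Q1.coeff (k + 1) := by
      intro k
      rw [hQ2, coeff_X_mul]
    have hQ1pal : ∀ k ≤ n + 2, Q1.coeff k = Q1.coeff (n + 2 - k) := by
      intro k hk
      rw [hc1, hc1, hpal k hk, Nat.choose_symm hk]
    have hQ2deg : Q2.natDegree ≤ n := by
      rw [natDegree_le_iff_coeff_eq_zero]
      intro N hN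
      rw [hcc]
      rcases Nat.lt_or_ge (n + 2) (N + 1) with h | h
      · rw [hc1, coeff_eq_zero_of_natDegree_lt (by omega), Nat.choose_eq_zero_of_lt h]
        simp
      · have : N + 1 = n + 2 := by omega
        rw [this, hQ1pal (n + 2) le_rfl, Nat.sub_self, h0]
    have hQ2pal : ∀ k ≤ n, Q2.coeff k = Q2.coeff (n - k) := by
      intro k hk
      rw [hcc, hcc, hQ1pal (k + 1) (by omega)]
      congr 1
      omega
    obtain ⟨a, ha⟩ := ih Q2 hQ2deg hQ2pal
    refine ⟨fun i => Nat.casesOn i (Q.coeff 0) a, ?_⟩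
    have hQQ : Q = C (Q.coeff 0) * (1 + X) ^ (n + 2) + X * Q2 := by
      rw [← hQ2, hQ1]
      ring
    have e1 : X * Q2 = ∑ i ∈ range (n / 2 + 1),
        C (a i) * ((1 + X) ^ (n + 2 - 2 * (i + 1)) * X ^ (i + 1)) := by
      rw [ha, mul_sum]
      apply sum_congr rfl
      intro i _
      rw [show n + 2 - 2 * (i + 1) = n - 2 * i by omega, pow_succ]
      ring
    rw [show (n + 2) / 2 + 1 = (n / 2 + 1) + 1 by omega, sum_range_succ']
    rw [← e1]
    simp only [mul_zero, Nat.sub_zero, pow_zero, mul_one]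
    rw [add_comm]
    exact hQQ

/-- The operator `y^r ↦ 4^(d-r) (z)_r (z+r+3/2)_{d-r}`. -/
noncomputable def T (d : ℕ) (B : ℂ[X]) (z : ℂ) : ℂ :=
  ∑ r ∈ range (d + 1), B.coeff r * (4 ^ (d - r) * rf z r * rf (z + r + 3 / 2) (d - r))

lemma T_C_mul (d : ℕ) (c z : ℂ) (B : ℂ[X]) : T d (C c * B) z = c * T d B z := by
  unfold T
  rw [mul_sum]
  apply sum_congr rfl
  intro k _
  rw [coeff_C_mul]
  ring

lemma T_add (d : ℕ) (z : ℂ) (A B : ℂ[X]) : T d (A + B) z = T d A z + T d B z := by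
  unfold T
  rw [← sum_add_distrib]
  apply sum_congr rfl
  intro k _
  rw [coeff_add]
  ring

lemma T_succ (d : ℕ) (z : ℂ) (B : ℂ[X]) (hB : B.natDegree ≤ d) :
    T (d + 1) B z = 4 * (z + d + 3 / 2) * T d B z := by
  unfold T
  rw [sum_range_succ, coeff_eq_zero_of_natDegree_lt (by omega : B.natDegree < d + 1), zero_mul,
    add_zero, mul_sum]
  apply sum_congr rfl
  intro k hk
  have hk' : k ≤ d := by
    rw [mem_range] at hk
    omega
  rw [Nat.succ_sub hk', rf_succ, Nat.cast_sub hk', pow_succ]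
  ring

lemma T_X_mul (d : ℕ) (z : ℂ) (B : ℂ[X]) :
    T (d + 1) (X * B) z = z * T d B (z + 1) := by
  unfold T
  rw [sum_range_succ', coeff_X_mul_zero, zero_mul, add_zero, mul_sum]
  apply sum_congr rfl
  intro k _
  rw [coeff_X_mul, Nat.add_sub_add_right, rf_succ']
  rw [show z + ((k + 1 : ℕ) : ℂ) + 3 / 2 = z + 1 + k + 3 / 2 by push_cast; ring]
  ring

lemma T_linear_mul (d : ℕ) (s z : ℂ) (B : ℂ[X]) (hB : B.natDegree ≤ d) :
    T (d + 1) ((X + C s) * B) z = z * T d B (z + 1) + 4 * s * (z + d + 3 / 2) * T d B z := by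
  rw [add_mul, T_add, T_X_mul, T_C_mul, T_succ d z B hB]
  ring

lemma bracket (z : ℂ) (r : ℕ) :
    rf z (r + 1) * rf z (r + 1) - rf (z + 1) (r + 1) * rf (z - 1) (r + 1) =
      (r + 1) * (rf z r * rf (z + 1) r) := by
  have h1 : rf (z + 1) (r + 1) = rf (z + 1) r * (z + 1 + r) := rf_succ _ _
  have h2 : rf (z - 1) (r + 1) = (z - 1) * rf z r := by
    rw [rf_succ']
    congr 2
    ring
  have h3 : rf z (r + 1) = rf z r * (z + r) := rf_succ _ _
  have h4 : rf z (r + 1) = z * rf (z + 1) r := rf_succ' _ _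
  calc rf z (r + 1) * rf z (r + 1) - rf (z + 1) (r + 1) * rf (z - 1) (r + 1)
      = (rf z r * (z + r)) * (z * rf (z + 1) r)
          - (rf (z + 1) r * (z + 1 + r)) * ((z - 1) * rf z r) := by
        rw [h1, h2]
        congr 1
        rw [← h3, ← h4]
    _ = _ := by ring

/-- The main algebraic identity. -/
lemma main_identity (n : ℕ) (hn : 2 ≤ n) (a : ℕ → ℂ) (z : ℂ) :
    Lam n z z (∑ i ∈ range (n / 2 + 1), C (a i) * ((1 + X) ^ (n - 2 * i) * X ^ i)) -
    Lam n (z + 1) (z - 1)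
      (∑ i ∈ range (n / 2 + 1), C (a i) * ((1 + X) ^ (n - 2 * i) * X ^ i)) =
    2 ^ (n % 2) * rf (z + 1) (n / 2 - 1 + n % 2) *
      T (n / 2 - 1) (derivative (∑ i ∈ range (n / 2 + 1), C (a i) * X ^ i)) z := by
  obtain ⟨d, e, he, hde⟩ : ∃ d e : ℕ, e < 2 ∧ n = 2 * (d + 1) + e :=
    ⟨n / 2 - 1, n % 2, Nat.mod_lt _ (by norm_num), by omega⟩
  have hn2 : n / 2 = d + 1 := by omega
  have hm2 : n % 2 = e := by omega
  rw [hn2, hm2, Nat.add_sub_cancel]
  have key : ∀ u v : ℂ, Lam n u v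
      (∑ i ∈ range (d + 1 + 1), C (a i) * ((1 + X) ^ (n - 2 * i) * X ^ i)) =
      ∑ i ∈ range (d + 1 + 1), a i * (rf u i * rf v i * rf (u + v + 2 * i) (n - 2 * i)) := by
    intro u v
    rw [Lam_sum]
    apply sum_congr rfl
    intro i hi
    rw [mem_range] at hi
    rw [Lam_C_mul]
    congr 1
    have := Lam_basis i (n - 2 * i) u v
    rwa [show 2 * i + (n - 2 * i) = n by omega] at this
  rw [key, key, ← sum_sub_distrib, sum_range_succ']
  simp only [rf_zero, Nat.cast_zero, mul_zero, add_zero, one_mul, Nat.sub_zero]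
  rw [show z + 1 + (z - 1) = z + z by ring, sub_self, add_zero]
  unfold T
  rw [mul_sum]
  apply sum_congr rfl
  intro r hr
  rw [mem_range] at hr
  have hcoeff : (derivative (∑ i ∈ range (d + 1 + 1), C (a i) * X ^ i)).coeff r =
      a (r + 1) * (r + 1) := by
    rw [coeff_derivative, finsetSum_coeff]
    congr 1
    rw [sum_eq_single (r + 1)]
    · simp
    · intro b _ hb
      rw [coeff_C_mul, coeff_X_pow, if_neg (fun h => hb h.symm), mul_zero]
    · intro h
      exfalso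
      apply h
      rw [mem_range]
      omega
  rw [hcoeff, ← mul_sub]
  rw [show z + z + 2 * ((r + 1 : ℕ) : ℂ) = 2 * (z + 1 + r) by push_cast; ring,
    show n - 2 * (r + 1) = 2 * (d - r) + e by omega, rf_two_mul_add _ _ _ he, ← sub_mul, bracket]
  have h5 : rf (z + 1) (d + e) = rf (z + 1) r * rf (z + 1 + r) (d - r + e) := by
    rw [← rf_add]
    congr 1
    omega
  rw [h5, show z + 1 + (r : ℂ) + 1 / 2 = z + r + 3 / 2 by ring]
  ring

end Pool.Agent.Lib.MP_4c66eb_an
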