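import Mathlib

set_option autoImplicit false
open Polynomial Finset

namespace Pool.Agent.Lib.MP_4c66eb_an

/-- sign of a product of linear factors -/
lemma sign_prod (d i : ℕ) (hi : i ≤ d) (x : ℕ → ℝ) (v : ℝ) (h1 : ∀ j < i, v ≤ x j)
    (h2 : ∀ j < d, i ≤ j → x j ≤ v) : 0 ≤ (-1 : ℝ) ^ i * ∏ j ∈ range d, (v - x j) := by
  have h3 : (-1 : ℝ) ^ i * ∏ j ∈ range d, (v - x j) =
      (∏ j ∈ range i, (x j - v)) * ∏ j ∈ Ico i d, (v - x j) := by
    rw [← prod_range_mul_prod_Ico _ hi, ← mul_assoc]
    congr 1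
    have : ∏ j ∈ range i, (x j - v) = ∏ j ∈ range i, ((-1) * (v - x j)) :=
      prod_congr rfl (fun j _ => by ring)
    rw [this, prod_mul_distrib, prod_const, card_range]
  rw [h3]
  apply mul_nonneg
  · apply prod_nonneg
    intro j hj
    rw [mem_range] at hj
    linarith [h1 j hj]
  · apply prod_nonneg
    intro j hj
    rw [mem_Ico] at hj
    linarith [h2 j hj.2 hj.1]

/-- The zeros lie in `[-(d+1/2), 0]` and consecutive zeros are at least one apart. -/
def Mesh (d : ℕ) (x : ℕ → ℝ) : Prop :=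
  (∀ i < d, x i ≤ 0 ∧ -((d : ℝ) + 1 / 2) ≤ x i) ∧ ∀ i, i + 1 < d → x (i + 1) + 1 ≤ x i

lemma Mesh.le_of_lt {d : ℕ} {x : ℕ → ℝ} (h : Mesh d x) {i j : ℕ} (hij : i < j) (hj : j < d) :
    x j + 1 ≤ x i := by
  induction j with
  | zero => omega
  | succ j ih =>
    rcases Nat.lt_or_ge i j with h1 | h1
    · have := ih h1 (by omega)
      have h2 := h.2 j hj
      linarith
    · have : i = j := by omega
      subst this
      exact h.2 i hj

/-- The key step. -/
lemma mesh_step (d : ℕ) (x : ℕ → ℝ) (hx : Mesh d x) (l m : ℝ) (hl : 0 ≤ l) (hm : 0 ≤ m) :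
    ∃ y : ℕ → ℝ, Mesh (d + 1) y ∧
      (C l * (X * ∏ i ∈ range d, (X + 1 - C (x i))) +
        C m * ((X + C ((d : ℝ) + 3 / 2)) * ∏ i ∈ range d, (X - C (x i))) : ℝ[X]) =
      C (l + m) * ∏ i ∈ range (d + 1), (X - C (y i)) := by
  set p : ℝ[X] := C l * (X * ∏ i ∈ range d, (X + 1 - C (x i))) +
        C m * ((X + C ((d : ℝ) + 3 / 2)) * ∏ i ∈ range d, (X - C (x i))) with hp
  have hev : ∀ v, p.eval v = l * (v * ∏ i ∈ range d, (v + 1 - x i)) +
      m * ((v + ((d : ℝ) + 3 / 2)) * ∏ i ∈ range d, (v - x i)) := by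
    intro v
    simp [hp, eval_prod]
  -- bounds
  set lo : ℕ → ℝ := fun i => if i < d then x i else -((d : ℝ) + 3 / 2) with hlo
  set hi : ℕ → ℝ := fun i => if i = 0 then 0 else x (i - 1) - 1 with hhi
  have hlohi : ∀ i ≤ d, lo i ≤ hi i := by
    intro i hid
    simp only [hlo, hhi]
    split_ifs with h1 h2 h2
    · subst h2
      exact (hx.1 _ h1).1
    · have := hx.le_of_lt (i := i - 1) (j := i) (by omega) h1
      linarith
    · have : (0 : ℝ) ≤ d := Nat.cast_nonneg d
      linarith
    · have := (hx.1 (i - 1) (by omega)).2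
      linarith
  have hsign_lo : ∀ i ≤ d, (-1 : ℝ) ^ i * p.eval (lo i) ≤ 0 := by
    intro i hid
    rw [hev]
    simp only [hlo]
    split_ifs with h1
    · have hz : ∏ j ∈ range d, (x i - x j) = 0 :=
        prod_eq_zero (mem_range.mpr h1) (sub_self _)
      have hs := sign_prod d i hid x (x i + 1)
        (fun j hj => by
          have := hx.le_of_lt hj h1
          linarith)
        (fun j hj hij => by
          rcases Nat.lt_or_ge i j with h | h
          · have := hx.le_of_lt h hj
            linarith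
          · have : i = j := by omega
            subst this
            linarith)
      rw [hz]
      have hx0 := (hx.1 i h1).1
      have : (-1 : ℝ) ^ i * (l * (x i * ∏ j ∈ range d, (x i + 1 - x j)) +
          m * ((x i + ((d : ℝ) + 3 / 2)) * 0)) =
          -(l * (-(x i)) * ((-1 : ℝ) ^ i * ∏ j ∈ range d, (x i + 1 - x j))) := by ring
      rw [this]
      have := mul_nonneg (mul_nonneg hl (neg_nonneg.mpr hx0)) hs
      linarith
    · have hid' : i = d := by omega
      subst hid'
      have hs := sign_prod i i le_rfl x (-((i : ℝ) + 1 / 2))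
        (fun j hj => (hx.1 j hj).2) (fun j hj hij => by omega)
      have e1 : -((i : ℝ) + 3 / 2) + ((i : ℝ) + 3 / 2) = 0 := by ring
      have e2 : -((i : ℝ) + 3 / 2) + 1 = -((i : ℝ) + 1 / 2) := by ring
      rw [e1, e2]
      have : (-1 : ℝ) ^ i * (l * (-((i : ℝ) + 3 / 2) *
          ∏ j ∈ range i, (-((i : ℝ) + 1 / 2) - x j)) +
          m * (0 * ∏ j ∈ range i, (-((i : ℝ) + 3 / 2) - x j))) =
          -(l * ((i : ℝ) + 3 / 2) * ((-1 : ℝ) ^ i * ∏ j ∈ range i, (-((i : ℝ) + 1 / 2) - x j))) := by
        ring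
      rw [this]
      have h0 : (0 : ℝ) ≤ (i : ℝ) + 3 / 2 := by positivity
      have := mul_nonneg (mul_nonneg hl h0) hs
      linarith
  have hsign_hi : ∀ i ≤ d, 0 ≤ (-1 : ℝ) ^ i * p.eval (hi i) := by
    intro i hid
    rw [hev]
    simp only [hhi]
    split_ifs with h1
    · subst h1
      have hs := sign_prod d 0 (Nat.zero_le _) x 0 (fun j hj => by omega)
        (fun j hj _ => (hx.1 j hj).1)
      simp only [pow_zero, one_mul, zero_mul, mul_zero, zero_add] at hs ⊢
      have h0 : (0 : ℝ) ≤ (d : ℝ) + 3 / 2 := by positivity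
      exact mul_nonneg hm (mul_nonneg h0 hs)
    · have h2 : i - 1 < d := by omega
      have hz : ∏ j ∈ range d, (x (i - 1) - 1 + 1 - x j) = 0 :=
        prod_eq_zero (mem_range.mpr h2) (by ring)
      have hs := sign_prod d i hid x (x (i - 1) - 1)
        (fun j hj => by
          rcases Nat.lt_or_ge j (i - 1) with h | h
          · have := hx.le_of_lt h h2
            linarith
          · have : j = i - 1 := by omega
            subst this
            linarith)
        (fun j hj hij => by
          have := hx.le_of_lt (i := i - 1) (j := j) (by omega) hj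
          linarith)
      rw [hz]
      have hx0 := (hx.1 _ h2).2
      have h0 : 0 ≤ x (i - 1) - 1 + ((d : ℝ) + 3 / 2) := by linarith
      have : (-1 : ℝ) ^ i * (l * ((x (i - 1) - 1) * 0) +
          m * ((x (i - 1) - 1 + ((d : ℝ) + 3 / 2)) * ∏ j ∈ range d, (x (i - 1) - 1 - x j))) =
          m * (x (i - 1) - 1 + ((d : ℝ) + 3 / 2)) *
            ((-1 : ℝ) ^ i * ∏ j ∈ range d, (x (i - 1) - 1 - x j)) := by ring
      rw [this]
      exact mul_nonneg (mul_nonneg hm h0) hs
  have hroot : ∀ i, ∃ y, i ≤ d → (lo i ≤ y ∧ y ≤ hi i ∧ p.eval y = 0) := by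
    intro i
    by_cases hid : i ≤ d
    · have hcont : ContinuousOn (fun v => (-1 : ℝ) ^ i * p.eval v) (Set.Icc (lo i) (hi i)) := by
        apply Continuous.continuousOn
        exact continuous_const.mul p.continuous
      have := intermediate_value_Icc (hlohi i hid) hcont
      obtain ⟨y, hy, hy0⟩ := this ⟨hsign_lo i hid, hsign_hi i hid⟩
      refine ⟨y, fun _ => ⟨hy.1, hy.2, ?_⟩⟩
      have hne : (-1 : ℝ) ^ i ≠ 0 := pow_ne_zero _ (by norm_num)
      exact (mul_eq_zero.mp hy0).resolve_left hne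
    · exact ⟨0, fun h => absurd h hid⟩
  choose y hy using hroot
  have hmesh : Mesh (d + 1) y := by
    refine ⟨?_, ?_⟩
    · intro i hi1
      obtain ⟨h1, h2, _⟩ := hy i (by omega)
      constructor
      · refine le_trans h2 ?_
        simp only [hhi]
        split_ifs with h3
        · exact le_rfl
        · have := (hx.1 (i - 1) (by omega)).1
          linarith
      · refine le_trans ?_ h1
        simp only [hlo]
        push_cast
        split_ifs with h3
        · have := (hx.1 i h3).2
          linarith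
        · linarith
    · intro i hi1
      obtain ⟨h1, _, _⟩ := hy i (by omega)
      obtain ⟨_, h2, _⟩ := hy (i + 1) (by omega)
      have h3 : lo i = x i := by simp [hlo, show i < d by omega]
      have h4 : hi (i + 1) = x i - 1 := by simp [hhi]
      linarith
  refine ⟨y, hmesh, ?_⟩
  -- polynomial identity
  have hinj : ∀ i ∈ range (d + 1), ∀ j ∈ range (d + 1), y i = y j → i = j := by
    intro i hi j hj hij
    rw [mem_range] at hi hj
    rcases lt_trichotomy i j with h | h | h
    · have := hmesh.le_of_lt h hj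
      linarith
    · exact h
    · have := hmesh.le_of_lt h hi
      linarith
  have hM1 : (X * ∏ i ∈ range d, (X + 1 - C (x i)) : ℝ[X]).Monic := by
    apply monic_X.mul
    apply monic_prod_of_monic
    intro i _
    have : (X + 1 - C (x i) : ℝ[X]) = X - C (x i - 1) := by
      rw [C_sub]
      simp
      ring
    rw [this]
    exact monic_X_sub_C _
  have hM2 : ((X + C ((d : ℝ) + 3 / 2)) * ∏ i ∈ range d, (X - C (x i)) : ℝ[X]).Monic := by
    apply (monic_X_add_C _).mul
    apply monic_prod_of_monic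
    intro i _
    exact monic_X_sub_C _
  have hM : (∏ i ∈ range (d + 1), (X - C (y i)) : ℝ[X]).Monic := by
    apply monic_prod_of_monic
    intro i _
    exact monic_X_sub_C _
  have hprodX : ∀ (z : ℕ → ℝ) (k : ℕ),
      (∏ i ∈ range k, (X - C (z i)) : ℝ[X]).natDegree = k := by
    intro z k
    rw [natDegree_prod_of_monic _ _ (fun i _ => monic_X_sub_C _)]
    simp
  have hd1 : (X * ∏ i ∈ range d, (X + 1 - C (x i)) : ℝ[X]).natDegree = d + 1 := by
    have e : (∏ i ∈ range d, (X + 1 - C (x i)) : ℝ[X]) = ∏ i ∈ range d, (X - C (x i - 1)) := by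
      apply prod_congr rfl
      intro i _
      rw [C_sub]
      simp
      ring
    rw [e, monic_X.natDegree_mul (monic_prod_of_monic _ _ (fun i _ => monic_X_sub_C _)),
      natDegree_X, hprodX (fun i => x i - 1), add_comm]
  have hd2 : ((X + C ((d : ℝ) + 3 / 2)) * ∏ i ∈ range d, (X - C (x i)) : ℝ[X]).natDegree
      = d + 1 := by
    rw [(monic_X_add_C _).natDegree_mul (monic_prod_of_monic _ _ (fun i _ => monic_X_sub_C _)),
      natDegree_X_add_C, hprodX, add_comm]
  have hd : (∏ i ∈ range (d + 1), (X - C (y i)) : ℝ[X]).natDegree = d + 1 := hprodX y (d + 1)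
  have hlt : ∀ A B : ℝ[X], A.Monic → B.Monic → A.natDegree = d + 1 → B.natDegree = d + 1 →
      (A - B).degree < (d + 1 : ℕ) := by
    intro A B hA hB hdA hdB
    have h1 : A.degree = (d + 1 : ℕ) := by rw [degree_eq_natDegree hA.ne_zero, hdA]
    have h2 : B.degree = (d + 1 : ℕ) := by rw [degree_eq_natDegree hB.ne_zero, hdB]
    rw [← h1]
    exact degree_sub_lt_left (h1.trans h2.symm) hA.ne_zero (by rw [hA.leadingCoeff, hB.leadingCoeff])
  set M : ℝ[X] := ∏ i ∈ range (d + 1), (X - C (y i)) with hMdef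
  set M1 : ℝ[X] := X * ∏ i ∈ range d, (X + 1 - C (x i)) with hM1def
  set M2 : ℝ[X] := (X + C ((d : ℝ) + 3 / 2)) * ∏ i ∈ range d, (X - C (x i)) with hM2def
  have hdiff : p - C (l + m) * M = C l * (M1 - M) + C m * (M2 - M) := by
    rw [hp, C_add]
    ring
  have hC : ∀ (c : ℝ) (A : ℝ[X]), (C c * A).degree ≤ A.degree := by
    intro c A
    rw [← smul_eq_C_mul]
    exact degree_smul_le c A
  have hdeg : (p - C (l + m) * M).degree < (d + 1 : ℕ) := by
    rw [hdiff]
    refine lt_of_le_of_lt (degree_add_le _ _) (max_lt ?_ ?_)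
    · exact lt_of_le_of_lt (hC _ _) (hlt _ _ hM1 hM hd1 hd)
    · exact lt_of_le_of_lt (hC _ _) (hlt _ _ hM2 hM hd2 hd)
  have hcard : ((range (d + 1)).image y).card = d + 1 := by
    rw [card_image_of_injOn, card_range]
    intro i hi j hj hij
    exact hinj i (by simpa using hi) j (by simpa using hj) hij
  have hzero : p - C (l + m) * M = 0 := by
    apply eq_zero_of_degree_lt_of_eval_finset_eq_zero ((range (d + 1)).image y)
    · rw [hcard]
      exact hdeg
    · intro v hv
      rw [mem_image] at hv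
      obtain ⟨i, hi, rfl⟩ := hv
      have h1 := (hy i (by rw [mem_range] at hi; omega)).2.2
      rw [eval_sub, h1, eval_mul, hMdef, eval_prod, prod_eq_zero hi (by simp)]
      ring
  exact sub_eq_zero.mp hzero

end Pool.Agent.Lib.MP_4c66eb_an
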