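import Mathlib

set_option autoImplicit false
open Polynomial Finset

namespace Pool.Agent.Lib.MP_4c66eb_an

/-- `G` has no zeros in the closed half-plane `re z ≥ c`. -/
def NV (c : ℝ) (G : ℂ[X]) : Prop := ∀ z : ℂ, c ≤ z.re → G.eval z ≠ 0

lemma NV.ne_zero {c : ℝ} {G : ℂ[X]} (h : NV c G) : G ≠ 0 := by
  rintro rfl
  exact h (c : ℂ) (by simp) (by simp)

lemma multiset_sum_pos (M : Multiset ℝ) (hM : M ≠ 0) (h : ∀ v ∈ M, 0 < v) : 0 < M.sum := by
  induction M using Multiset.induction_on with
  | empty => exact absurd rfl hM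
  | cons a M ih =>
    rw [Multiset.sum_cons]
    have ha := h a (Multiset.mem_cons_self a M)
    by_cases h0 : M = 0
    · subst h0
      simpa using ha
    · have := ih h0 (fun v hv => h v (Multiset.mem_cons_of_mem hv))
      linarith

lemma re_logDeriv_pos {c : ℝ} {G : ℂ[X]} (h : NV c G) (hd : 0 < G.natDegree) (z : ℂ)
    (hz : c ≤ z.re) : 0 < (G.derivative.eval z / G.eval z).re := by
  rw [(IsAlgClosed.splits G).eval_derivative_div_eval_of_ne_zero (h z hz)]
  have hre : ((G.roots.map fun w => 1 / (z - w)).sum).re =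
      (G.roots.map fun w => (1 / (z - w)).re).sum := by
    have := map_multiset_sum Complex.reAddGroupHom (G.roots.map fun w => 1 / (z - w))
    rw [Multiset.map_map] at this
    exact this
  rw [hre]
  have hcard : G.roots ≠ 0 := by
    intro h0
    have h1 := (splits_iff_card_roots.mp (IsAlgClosed.splits G))
    rw [h0, Multiset.card_zero] at h1
    omega
  apply multiset_sum_pos
  · intro h0
    apply hcard
    exact Multiset.map_eq_zero.mp h0
  · intro v hv
    rw [Multiset.mem_map] at hv
    obtain ⟨w, hw, rfl⟩ := hv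
    have hwr : w.re < c := by
      by_contra hcon
      push Not at hcon
      exact h w hcon ((mem_roots h.ne_zero).mp hw)
    rw [one_div, Complex.inv_re]
    apply div_pos
    · rw [Complex.sub_re]
      linarith
    · rw [Complex.normSq_pos]
      intro h0
      have : (z - w).re = 0 := by rw [h0]; simp
      rw [Complex.sub_re] at this
      linarith

/-- Gauss–Lucas for half-planes -/
lemma NV.gl {c : ℝ} {G : ℂ[X]} (h : NV c G) (hd : 0 < G.natDegree) :
    NV c (derivative G) := by
  intro z hz h0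
  have := re_logDeriv_pos h hd z hz
  rw [h0] at this
  simp at this

lemma natDegree_iterate (G : ℂ[X]) (k : ℕ) (hk : k ≤ G.natDegree) :
    (derivative^[k] G).natDegree = G.natDegree - k := by
  induction k with
  | zero => simp
  | succ k ih =>
    rw [Function.iterate_succ_apply', natDegree_derivative, ih (by omega)]
    omega

lemma NV.iterate {c : ℝ} {G : ℂ[X]} (h : NV c G) (k : ℕ) (hk : k ≤ G.natDegree) :
    NV c (derivative^[k] G) := by
  induction k with
  | zero => simpa using h
  | succ k ih =>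
    rw [Function.iterate_succ_apply']
    apply (ih (by omega)).gl
    rw [natDegree_iterate G k (by omega)]
    omega

/-- Hermite–Poulain step. -/
lemma NV.hp {c : ℝ} {G : ℂ[X]} (h : NV c G) (σ : ℂ) (hσ : 0 ≤ σ.re) :
    NV c (G + C σ * Polynomial.derivative G) := by
  intro z hz h0
  rw [eval_add, eval_mul, eval_C] at h0
  have hG := h z hz
  rcases Nat.eq_zero_or_pos G.natDegree with hd | hd
  · have : Polynomial.derivative G = 0 := by
      rw [eq_C_of_natDegree_eq_zero hd]
      simp
    rw [this] at h0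
    simp at h0
    exact hG h0
  · have hpos := re_logDeriv_pos h hd z hz
    set L := (Polynomial.derivative G).eval z / G.eval z with hL
    have h1 : σ * L = -1 := by
      have : (Polynomial.derivative G).eval z = L * G.eval z := by
        rw [hL]
        field_simp
      rw [this] at h0
      have h2 : G.eval z * (1 + σ * L) = 0 := by linear_combination h0
      rcases mul_eq_zero.mp h2 with h3 | h3
      · exact absurd h3 hG
      · linear_combination h3
    have hre := congrArg Complex.re h1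
    have him := congrArg Complex.im h1
    simp [Complex.mul_re, Complex.mul_im] at hre him
    -- (p,q) = σ, (u,v) = L : p u - q v = -1, p v + q u = 0
    have h3 : L.re * (σ.re ^ 2 + σ.im ^ 2) = -σ.re := by
      linear_combination σ.re * hre + σ.im * him
    have h4 : 0 ≤ L.re * (σ.re ^ 2 + σ.im ^ 2) := by positivity
    have h5 : σ.re = 0 := by linarith
    rw [h5] at h3
    have h6 : σ.im ^ 2 = 0 := by
      have : L.re * σ.im ^ 2 = 0 := by linear_combination h3
      rcases mul_eq_zero.mp this with h7 | h7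
      · linarith
      · exact h7
    have h7 : σ.im = 0 := by
      exact pow_eq_zero_iff (by norm_num) |>.mp h6
    rw [h5, h7] at hre
    simp at hre

/-- `∑ₖ F_k (s u)^(k+j)/(k+j)!` as a polynomial in `u` -/
noncomputable def Ej (j : ℕ) (s : ℂ) (F : ℂ[X]) : ℂ[X] :=
  ∑ k ∈ range (F.natDegree + 1), monomial (k + j) (F.coeff k * s ^ (k + j) / ((k + j).factorial : ℂ))

lemma coeff_Ej (j : ℕ) (s : ℂ) (F : ℂ[X]) (l : ℕ) :
    (Ej j s F).coeff l = if j ≤ l then F.coeff (l - j) * s ^ l / (l.factorial : ℂ) else 0 := by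
  unfold Ej
  rw [finsetSum_coeff]
  simp only [coeff_monomial]
  split_ifs with h
  · rw [sum_eq_single (l - j)]
    · rw [if_pos (by omega), show l - j + j = l by omega]
    · intro b _ hb
      rw [if_neg (by omega)]
    · intro hb
      rw [mem_range] at hb
      rw [coeff_eq_zero_of_natDegree_lt (by omega)]
      simp
  · apply sum_eq_zero
    intro b _
    rw [if_neg (by omega)]

lemma Ej_linear (j : ℕ) (s a : ℂ) (hs : s ≠ 0) (F : ℂ[X]) :
    Ej j s ((X + C a) * F) = Ej (j + 1) s F + C (a / s) * derivative (Ej (j + 1) s F) := by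
  ext l
  rw [coeff_add, coeff_C_mul, coeff_derivative, coeff_Ej, coeff_Ej, coeff_Ej]
  have hfac : ((l + 1).factorial : ℂ) = (l + 1) * (l.factorial : ℂ) := by
    rw [Nat.factorial_succ]
    push_cast
    ring
  have hl1 : ((l : ℂ) + 1) ≠ 0 := by
    exact_mod_cast Nat.succ_ne_zero l
  have hlf : (l.factorial : ℂ) ≠ 0 := by
    exact_mod_cast Nat.factorial_ne_zero l
  rcases Nat.lt_trichotomy l j with h | h | h
  · rw [if_neg (by omega), if_neg (by omega), if_neg (by omega)]
    simp
  · subst h
    rw [if_pos le_rfl, if_neg (by omega), if_pos le_rfl, Nat.sub_self, Nat.sub_self]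
    rw [mul_coeff_zero, hfac]
    simp
    field_simp
    ring
  · rw [if_pos h.le, if_pos (by omega), if_pos (by omega), add_mul, coeff_add, coeff_C_mul]
    obtain ⟨m, hm⟩ : ∃ m, l = j + m + 1 := ⟨l - j - 1, by omega⟩
    subst hm
    rw [show j + m + 1 - j = m + 1 by omega, show j + m + 1 - (j + 1) = m by omega,
      show j + m + 1 + 1 - (j + 1) = m + 1 by omega, coeff_X_mul, hfac]
    field_simp
    ring

lemma Ej_one (j : ℕ) (s : ℂ) : Ej j s 1 = monomial j (s ^ j / (j.factorial : ℂ)) := by
  ext l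
  rw [coeff_Ej, coeff_monomial, coeff_one]
  by_cases h : j = l
  · subst h
    simp
  · rw [if_neg h]
    split_ifs with h1 h2
    · omega
    · simp
    · rfl

lemma Ej_C_mul (j : ℕ) (s c : ℂ) (F : ℂ[X]) : Ej j s (C c * F) = C c * Ej j s F := by
  ext l
  rw [coeff_C_mul, coeff_Ej, coeff_Ej, coeff_C_mul]
  split_ifs
  · ring
  · simp

lemma Ej_NV (s : ℂ) (hs : 0 < s.re) (c : ℝ) (hc : 0 < c) (A : Multiset ℝ) (hA : ∀ a ∈ A, 0 < a) :
    ∀ j, NV c (Ej j s ((A.map fun a : ℝ => X + C (a : ℂ)).prod)) := by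
  have hs0 : s ≠ 0 := by
    rintro rfl
    simp at hs
  induction A using Multiset.induction_on with
  | empty =>
    intro j z hz
    rw [Multiset.map_zero, Multiset.prod_zero, Ej_one, eval_monomial]
    have hz0 : z ≠ 0 := by
      rintro rfl
      simp at hz
      linarith
    have : (j.factorial : ℂ) ≠ 0 := by
      exact_mod_cast Nat.factorial_ne_zero j
    exact mul_ne_zero (div_ne_zero (pow_ne_zero _ hs0) this) (pow_ne_zero _ hz0)
  | cons a A ih =>
    intro j
    rw [Multiset.map_cons, Multiset.prod_cons, Ej_linear j s a hs0]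
    apply (ih (fun b hb => hA b (Multiset.mem_cons_of_mem hb)) (j + 1)).hp
    rw [Complex.div_re]
    have := hA a (Multiset.mem_cons_self a A)
    simp only [Complex.ofReal_re, Complex.ofReal_im, zero_mul, zero_div, add_zero]
    exact div_nonneg (mul_nonneg this.le hs.le) (Complex.normSq_nonneg s)

/-- all zeros are real and negative -/
def NegRoots (F : ℂ[X]) : Prop := ∀ z : ℂ, F.eval z = 0 → z.im = 0 ∧ z.re < 0

lemma NegRoots.ne_zero {F : ℂ[X]} (h : NegRoots F) : F ≠ 0 := by
  rintro rfl
  have := (h 0 (by simp)).2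
  simp at this

lemma NegRoots.exists_multiset {F : ℂ[X]} (h : NegRoots F) :
    ∃ A : Multiset ℝ, (∀ a ∈ A, 0 < a) ∧ Multiset.card A = F.natDegree ∧
      F = C F.leadingCoeff * (A.map fun a : ℝ => X + C (a : ℂ)).prod := by
  refine ⟨F.roots.map fun z => -z.re, ?_, ?_, ?_⟩
  · intro a ha
    rw [Multiset.mem_map] at ha
    obtain ⟨z, hz, rfl⟩ := ha
    have := (h z ((mem_roots h.ne_zero).mp hz)).2
    linarith
  · rw [Multiset.card_map]
    exact splits_iff_card_roots.mp (IsAlgClosed.splits F)
  · conv_lhs => rw [(IsAlgClosed.splits F).eq_prod_roots]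
    rw [Multiset.map_map]
    congr 2
    apply Multiset.map_congr rfl
    intro z hz
    have hz1 := (h z ((mem_roots h.ne_zero).mp hz)).1
    have : z = (z.re : ℂ) := by
      apply Complex.ext
      · simp
      · simp [hz1]
    simp only [Function.comp]
    conv_lhs => rw [this]
    push_cast
    rw [C_neg]
    ring

lemma exists_sqrt (x : ℂ) (hx : ¬(x.im = 0 ∧ x.re ≤ 0)) : ∃ s : ℂ, 0 < s.re ∧ s ^ 2 = x := by
  obtain ⟨s, hs⟩ := IsAlgClosed.exists_pow_nat_eq x (n := 2) (by norm_num)
  rcases lt_trichotomy s.re 0 with h | h | h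
  · refine ⟨-s, ?_, ?_⟩
    · simp [h]
    · rw [neg_sq, hs]
  · exfalso
    apply hx
    rw [← hs, sq]
    constructor
    · simp [Complex.mul_im, h]
    · simp only [Complex.mul_re, h, mul_zero, zero_sub]
      nlinarith [mul_self_nonneg s.im]
  · exact ⟨s, h, hs⟩

lemma eval_Ej (s u : ℂ) (F : ℂ[X]) : (Ej 0 s F).eval u = (Ej 0 1 F).eval (s * u) := by
  unfold Ej
  rw [eval_finsetSum, eval_finsetSum]
  apply sum_congr rfl
  intro k _
  rw [eval_monomial, eval_monomial, add_zero, mul_pow, one_pow]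
  ring

lemma NegRoots.E {F : ℂ[X]} (h : NegRoots F) : NegRoots (Ej 0 1 F) := by
  intro x hx
  by_contra hcon
  by_cases h1 : x.im = 0 ∧ x.re ≤ 0
  · have hx0 : x = 0 := by
      apply Complex.ext
      · rcases lt_or_eq_of_le h1.2 with h2 | h2
        · exact absurd ⟨h1.1, h2⟩ hcon
        · simpa using h2
      · simpa using h1.1
    subst hx0
    rw [← coeff_zero_eq_eval_zero, coeff_Ej] at hx
    simp at hx
    have := (h 0 (by rw [← coeff_zero_eq_eval_zero]; exact hx)).2
    simp at this
  · obtain ⟨s, hs, hsx⟩ := exists_sqrt x h1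
    obtain ⟨A, hA, _, hFA⟩ := h.exists_multiset
    have h2 := Ej_NV s hs s.re hs A hA 0 s le_rfl
    have h3 : (Ej 0 s F).eval s = 0 := by
      rw [eval_Ej, ← sq, hsx]
      exact hx
    rw [hFA, Ej_C_mul, eval_mul, eval_C] at h3
    rcases mul_eq_zero.mp h3 with h4 | h4
    · exact h.ne_zero (leadingCoeff_eq_zero.mp h4)
    · exact h2 h4

lemma NegRoots.NV_Ej {F : ℂ[X]} (h : NegRoots F) (s : ℂ) (hs : 0 < s.re) :
    NV 0 (Ej 0 s F) := by
  intro u hu h0
  have hs0 : s ≠ 0 := by
    rintro rfl
    simp at hs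
  rw [eval_Ej] at h0
  obtain ⟨h1, h2⟩ := h.E _ h0
  set v := s * u with hv
  have h3 : u = v / s := by
    rw [hv]
    field_simp
  have h4 : u.re = v.re * s.re / Complex.normSq s := by
    rw [h3, Complex.div_re, h1]
    simp
  have h5 : 0 < Complex.normSq s := Complex.normSq_pos.mpr hs0
  have h6 : u.re < 0 := by
    rw [h4]
    apply div_neg_of_neg_of_pos _ h5
    exact mul_neg_of_neg_of_pos h2 hs
  linarith

lemma natDegree_Ej (s : ℂ) (hs : s ≠ 0) (F : ℂ[X]) :
    (Ej 0 s F).natDegree = F.natDegree := by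
  by_cases hF : F = 0
  · subst hF
    have : Ej 0 s 0 = 0 := by
      ext l
      rw [coeff_Ej]
      simp
    rw [this]
  apply natDegree_eq_of_le_of_coeff_ne_zero
  · rw [natDegree_le_iff_coeff_eq_zero]
    intro N hN
    rw [coeff_Ej, if_pos (Nat.zero_le _), Nat.sub_zero, coeff_eq_zero_of_natDegree_lt hN]
    simp
  · rw [coeff_Ej, if_pos (Nat.zero_le _), Nat.sub_zero]
    have h1 : F.coeff F.natDegree ≠ 0 := leadingCoeff_ne_zero.mpr hF
    have h2 : (F.natDegree.factorial : ℂ) ≠ 0 := by
      exact_mod_cast Nat.factorial_ne_zero _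
    exact div_ne_zero (mul_ne_zero h1 (pow_ne_zero _ hs)) h2

lemma Q_neg {F : ℂ[X]} (h : NegRoots F) (w : ℂ)
    (hw : ∑ k ∈ range (F.natDegree + 1),
      (F.coeff k * F.coeff (F.natDegree - k) * (F.natDegree.choose k : ℂ)) * w ^ k = 0) :
    w.im = 0 ∧ w.re < 0 := by
  set n := F.natDegree with hn
  have hF0 : F.coeff 0 ≠ 0 := by
    intro h0
    have := (h 0 (by rw [← coeff_zero_eq_eval_zero]; exact h0)).2
    simp at this
  have hFn : F.coeff n ≠ 0 := leadingCoeff_ne_zero.mpr h.ne_zero
  by_contra hcon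
  by_cases h1 : w.im = 0 ∧ w.re ≤ 0
  · have hw0 : w = 0 := by
      apply Complex.ext
      · rcases lt_or_eq_of_le h1.2 with h2 | h2
        · exact absurd ⟨h1.1, h2⟩ hcon
        · simpa using h2
      · simpa using h1.1
    subst hw0
    rw [sum_range_succ'] at hw
    simp only [pow_succ, mul_zero, sum_const_zero, pow_zero, mul_one, zero_add, Nat.sub_zero,
      Nat.choose_zero_right, Nat.cast_one] at hw
    exact mul_ne_zero hF0 hFn hw
  · obtain ⟨s, hs, hsw⟩ := exists_sqrt w h1
    have hs0 : s ≠ 0 := by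
      rintro rfl
      simp at hs
    have hsi : 0 < (s⁻¹).re := by
      rw [Complex.inv_re]
      exact div_pos hs (Complex.normSq_pos.mpr hs0)
    set H := Ej 0 s F * Ej 0 s⁻¹ F with hH
    have hNV : NV 0 H := by
      intro u hu
      rw [hH, eval_mul]
      exact mul_ne_zero (h.NV_Ej s hs u hu) (h.NV_Ej s⁻¹ hsi u hu)
    have hdeg : H.natDegree = n + n := by
      rw [hH, natDegree_mul (h.NV_Ej s hs).ne_zero (h.NV_Ej s⁻¹ hsi).ne_zero,
        natDegree_Ej s hs0, natDegree_Ej s⁻¹ (inv_ne_zero hs0)]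
    have h2 := hNV.iterate n (by omega) 0 (by simp)
    apply h2
    rw [← coeff_zero_eq_eval_zero, coeff_iterate_derivative, zero_add, Nat.descFactorial_self,
      hH, coeff_mul, Finset.Nat.sum_antidiagonal_eq_sum_range_succ_mk, nsmul_eq_mul]
    have h3 : (n.factorial : ℂ) * ∑ k ∈ range n.succ,
        (Ej 0 s F).coeff k * (Ej 0 s⁻¹ F).coeff (n - k) =
        (s⁻¹) ^ n * ∑ k ∈ range (n + 1),
          (F.coeff k * F.coeff (n - k) * (n.choose k : ℂ)) * w ^ k := by
      rw [mul_sum, mul_sum]
      apply sum_congr rfl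
      intro k hk
      have hk' : k ≤ n := by
        rw [mem_range] at hk
        omega
      rw [coeff_Ej, coeff_Ej, if_pos (Nat.zero_le _), if_pos (Nat.zero_le _), Nat.sub_zero,
        Nat.sub_zero, ← hsw, Nat.cast_choose ℂ hk']
      have f1 : (k.factorial : ℂ) ≠ 0 := by exact_mod_cast Nat.factorial_ne_zero k
      have f2 : ((n - k).factorial : ℂ) ≠ 0 := by exact_mod_cast Nat.factorial_ne_zero (n - k)
      obtain ⟨m, hm⟩ : ∃ m, n = k + m := ⟨n - k, by omega⟩
      rw [hm, Nat.add_sub_cancel_left] at f2 ⊢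
      rw [pow_add (s⁻¹) k m]
      have e1 : s ^ k * (s⁻¹) ^ k = 1 := by
        rw [← mul_pow, mul_inv_cancel₀ hs0, one_pow]
      field_simp
      have e2 : (1 / s) ^ k * s ^ (2 * k) = s ^ k := by
        rw [one_div, two_mul, pow_add, ← mul_assoc, ← mul_pow, inv_mul_cancel₀ hs0, one_pow,
          one_mul]
      linear_combination (-(((k + m).factorial : ℂ) * F.coeff k * F.coeff m)) * e2
    simp only at h3 ⊢
    rw [h3, hw, mul_zero]

end Pool.Agent.Lib.MP_4c66eb_an
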