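import Mathlib
import Pool.Agent.Lib.MP_4c66eb_an.Ident
import Pool.Agent.Lib.MP_4c66eb_an.Mesh
import Pool.Agent.Lib.MP_4c66eb_an.Roots

set_option autoImplicit false
open Polynomial Finset

namespace Pool.Agent.Lib.MP_4c66eb_an

lemma T_mesh (d : ℕ) : ∀ S : Multiset ℝ, (∀ s ∈ S, 0 < s) → Multiset.card S ≤ d →
    ∃ c : ℝ, 0 < c ∧ ∃ x : ℕ → ℝ, Mesh d x ∧
      ∀ z : ℂ, T d ((S.map fun s : ℝ => X + C (s : ℂ)).prod) z =
        (c : ℂ) * ∏ i ∈ range d, (z - (x i : ℂ)) := by
  induction d with
  | zero =>
    intro S _ hcard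
    have hS : S = 0 := Multiset.card_eq_zero.mp (Nat.le_zero.mp hcard)
    subst hS
    refine ⟨1, one_pos, fun _ => 0, ⟨fun i hi => by omega, fun i hi => by omega⟩, ?_⟩
    intro z
    simp [T, rf_zero]
  | succ d ih =>
    intro S hS hcard
    have hdeg : ∀ S' : Multiset ℝ,
        ((S'.map fun s : ℝ => X + C (s : ℂ)).prod).natDegree = Multiset.card S' := by
      intro S'
      rw [natDegree_multiset_prod_of_monic]
      · simp [Multiset.map_map, Function.comp_def]
      · intro p hp
        rw [Multiset.mem_map] at hp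
        obtain ⟨s, _, rfl⟩ := hp
        exact monic_X_add_C _
    rcases Nat.lt_or_ge d (Multiset.card S) with h | h
    · obtain ⟨s, S', rfl⟩ : ∃ s S', S = s ::ₘ S' := by
        have : S ≠ 0 := by
          rintro rfl
          simp at h
        obtain ⟨s, hs⟩ := Multiset.exists_mem_of_ne_zero this
        obtain ⟨S', hS'⟩ := Multiset.exists_cons_of_mem hs
        exact ⟨s, S', hS'⟩
      rw [Multiset.card_cons] at h hcard
      have hs := hS s (Multiset.mem_cons_self s S')
      obtain ⟨c, hc, x, hx, hT⟩ := ih S' (fun t ht => hS t (Multiset.mem_cons_of_mem ht))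
        (by omega)
      obtain ⟨y, hy, hpoly⟩ := mesh_step d x hx 1 (4 * s) zero_le_one (by linarith)
      refine ⟨c * (1 + 4 * s), by positivity, y, hy, ?_⟩
      intro z
      rw [Multiset.map_cons, Multiset.prod_cons, T_linear_mul _ _ _ _ (by rw [hdeg]; omega), hT, hT]
      have h1 := congrArg (fun p : ℝ[X] => aeval z p) hpoly
      simp only [map_add, map_mul, map_prod, map_sub, aeval_X, aeval_C, map_one, map_ofNat,
        Complex.coe_algebraMap, Complex.ofReal_add, Complex.ofReal_mul, Complex.ofReal_natCast,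
        Complex.ofReal_div, Complex.ofReal_ofNat, Complex.ofReal_one] at h1
      push_cast
      linear_combination (c : ℂ) * h1
    · obtain ⟨c, hc, x, hx, hT⟩ := ih S hS h
      obtain ⟨y, hy, hpoly⟩ := mesh_step d x hx 0 1 le_rfl zero_le_one
      refine ⟨c * 4, by positivity, y, hy, ?_⟩
      intro z
      rw [T_succ _ _ _ (by rw [hdeg]; omega), hT]
      have h1 := congrArg (fun p : ℝ[X] => aeval z p) hpoly
      simp only [map_add, map_mul, map_prod, map_sub, aeval_X, aeval_C, map_one, map_ofNat,
        Complex.coe_algebraMap, Complex.ofReal_add, Complex.ofReal_mul, Complex.ofReal_natCast,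
        Complex.ofReal_div, Complex.ofReal_ofNat, Complex.ofReal_one, map_zero] at h1
      push_cast
      linear_combination (4 * (c : ℂ)) * h1

lemma rf_ne_zero_of_pos (r : ℝ) (hr : 0 < r) (k : ℕ) : rf (r : ℂ) k ≠ 0 := by
  unfold rf
  rw [prod_ne_zero_iff]
  intro i _ h
  have := congrArg Complex.re h
  simp at this
  have h2 : (0 : ℝ) ≤ i := Nat.cast_nonneg i
  linarith

lemma rf_zero_left (k : ℕ) (hk : k ≠ 0) : rf 0 k = 0 := by
  unfold rf
  apply prod_eq_zero (mem_range.mpr (Nat.pos_of_ne_zero hk))
  simp

lemma T_at_zero (d : ℕ) (B : ℂ[X]) (hB : B.coeff 0 ≠ 0) : T d B 0 ≠ 0 := by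
  unfold T
  rw [sum_eq_single 0]
  · have h1 : rf (0 + ((0 : ℕ) : ℂ) + 3 / 2) (d - 0) ≠ 0 := by
      have := rf_ne_zero_of_pos (3 / 2) (by norm_num) (d - 0)
      convert this using 2
      push_cast
      ring
    rw [rf_zero]
    have h4 : (4 : ℂ) ^ (d - 0) ≠ 0 := pow_ne_zero _ (by norm_num)
    exact mul_ne_zero hB (mul_ne_zero (mul_ne_zero h4 one_ne_zero) h1)
  · intro b _ hb
    rw [rf_zero_left b hb]
    ring
  · intro h
    exact absurd (mem_range.mpr (Nat.succ_pos d)) h

lemma A_neg (n : ℕ) (a : ℕ → ℂ) (Q : ℂ[X]) (hQ : NegRoots Q)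
    (hQa : Q = ∑ i ∈ range (n / 2 + 1), C (a i) * ((1 + X) ^ (n - 2 * i) * X ^ i)) :
    NegRoots (∑ i ∈ range (n / 2 + 1), C (a i) * X ^ i) := by
  intro y hy
  rw [eval_finsetSum] at hy
  simp only [eval_mul, eval_C, eval_pow, eval_X] at hy
  have hQev : ∀ w, Q.eval w =
      ∑ i ∈ range (n / 2 + 1), a i * ((1 + w) ^ (n - 2 * i) * w ^ i) := by
    intro w
    rw [hQa, eval_finsetSum]
    simp
  by_cases hy0 : y = 0
  · exfalso
    subst hy0
    have h1 : Q.eval 0 = 0 := by
      rw [hQev]
      refine Eq.trans ?_ hy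
      apply sum_congr rfl
      intro i _
      rcases Nat.eq_zero_or_pos i with h | h
      · subst h
        simp
      · rw [zero_pow (by omega)]
        simp
    have := (hQ 0 h1).2
    simp at this
  · obtain ⟨s, hs⟩ := IsAlgClosed.exists_pow_nat_eq (1 - 4 * y) (n := 2) (by norm_num)
    set w : ℂ := (1 - 2 * y + s) / (2 * y) with hw
    have h1 : y * (1 + w) ^ 2 = w := by
      have e : 1 + w = (1 + s) / (2 * y) := by
        rw [hw]
        field_simp
        ring
      rw [e, hw]
      field_simp
      linear_combination hs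
    have h2 : 1 + w ≠ 0 := by
      intro h
      rw [h] at h1
      have h3 : w = 0 := by rw [← h1]; ring
      rw [h3] at h
      simp at h
    have h3 : Q.eval w = 0 := by
      rw [hQev]
      have : ∑ i ∈ range (n / 2 + 1), a i * ((1 + w) ^ (n - 2 * i) * w ^ i) =
          (1 + w) ^ n * ∑ i ∈ range (n / 2 + 1), a i * y ^ i := by
        rw [mul_sum]
        apply sum_congr rfl
        intro i hi
        rw [mem_range] at hi
        have e : (1 + w) ^ n = (1 + w) ^ (n - 2 * i) * ((1 + w) ^ 2) ^ i := by
          rw [← pow_mul, ← pow_add]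
          congr 1
          omega
        have e2 : w ^ i = y ^ i * ((1 + w) ^ 2) ^ i := by
          rw [← mul_pow, h1]
        rw [e, e2]
        ring
      rw [this, hy, mul_zero]
    obtain ⟨h4, h5⟩ := hQ w h3
    have h6 : w = (w.re : ℂ) := by
      apply Complex.ext
      · simp
      · simp [h4]
    have h7 : y = ((w.re / (1 + w.re) ^ 2 : ℝ) : ℂ) := by
      have h8 : (1 + (w.re : ℂ)) ^ 2 ≠ 0 := by
        rw [← h6]
        exact pow_ne_zero _ h2
      push_cast
      rw [eq_div_iff h8, ← h6]
      exact h1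
    have h9 : (1 + w.re) ≠ 0 := by
      intro h
      apply h2
      rw [h6]
      exact_mod_cast h
    rw [h7]
    constructor
    · exact Complex.ofReal_im _
    · rw [Complex.ofReal_re]
      exact div_neg_of_neg_of_pos h5 (by positivity)

lemma NegRoots.derivative {A : ℂ[X]} (h : NegRoots A) (hd : 0 < A.natDegree) :
    NegRoots (Polynomial.derivative A) := by
  intro z hz
  have hdeg : 0 < A.degree := natDegree_pos_iff_degree_pos.mp hd
  have h1 : Polynomial.derivative A ≠ 0 := by
    intro h0
    have := Polynomial.derivative_eq_zero.mp h0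
    omega
  have h2 : z ∈ (Polynomial.derivative A).rootSet ℂ := by
    rw [mem_rootSet]
    exact ⟨h1, by simpa using hz⟩
  have h3 := rootSet_derivative_subset_convexHull_rootSet hdeg h2
  have h4 : convexHull ℝ (A.rootSet ℂ) ⊆ {z : ℂ | z.im = 0 ∧ z.re < 0} := by
    apply convexHull_min
    · intro w hw
      rw [mem_rootSet] at hw
      exact h w (by simpa using hw.2)
    · have e : {z : ℂ | z.im = 0 ∧ z.re < 0} = {z : ℂ | z.im = 0} ∩ {z : ℂ | z.re < 0} := rfl
      rw [e]
      apply Convex.inter
      · exact convex_hyperplane (f := Complex.im) ⟨fun x y => Complex.add_im x y,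
          fun c x => by simp⟩ 0
      · exact convex_halfSpace_re_lt 0
  exact h4 h3

/-- The main theorem. -/
theorem main (n : ℕ) (f : ℕ → ℝ) (hfn : f n ≠ 0)
    (hroots : ∀ z : ℂ, (∑ k ∈ Finset.range (n + 1), (f k : ℂ) * z ^ k) = 0 →
          z.im = 0 ∧ z.re < 0) (z : ℂ)
    (hz : z ∈ (∑ k ∈ Finset.range (n + 1),
          Polynomial.C (((f k * f (n - k) * (n.choose k : ℝ)) : ℝ) : ℂ) *
            (ascPochhammer ℂ k * ascPochhammer ℂ (n - k) -
              (ascPochhammer ℂ k).comp (Polynomial.X + 1) *
                (ascPochhammer ℂ (n - k)).comp (Polynomial.X - 1))).roots) :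
        z.im = 0 ∧ z.re < 0 := by
  set P : ℂ[X] := ∑ k ∈ Finset.range (n + 1),
          Polynomial.C (((f k * f (n - k) * (n.choose k : ℝ)) : ℝ) : ℂ) *
            (ascPochhammer ℂ k * ascPochhammer ℂ (n - k) -
              (ascPochhammer ℂ k).comp (Polynomial.X + 1) *
                (ascPochhammer ℂ (n - k)).comp (Polynomial.X - 1)) with hP
  have hP0 : P ≠ 0 := by
    intro h
    rw [h, roots_zero] at hz
    exact absurd hz (Multiset.notMem_zero z)
  have hPz : P.eval z = 0 := (mem_roots hP0).mp hz
  have hn : 2 ≤ n := by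
    by_contra hlt
    apply hP0
    have : n = 0 ∨ n = 1 := by omega
    rcases this with h | h
    · subst h
      simp [hP]
    · subst h
      rw [hP]
      simp only [sum_range_succ, range_zero, sum_empty]
      simp [ascPochhammer_one]
      ring
  -- the polynomial F
  set F : ℂ[X] := ∑ k ∈ range (n + 1), C (f k : ℂ) * X ^ k with hF
  have hFcoeff : ∀ k ≤ n, F.coeff k = (f k : ℂ) := by
    intro k hk
    rw [hF, finsetSum_coeff, sum_eq_single k]
    · simp
    · intro b _ hb
      rw [coeff_C_mul, coeff_X_pow, if_neg (fun h => hb h.symm), mul_zero]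
    · intro h
      exact absurd (mem_range.mpr (by omega)) h
  have hFdeg : F.natDegree = n := by
    apply natDegree_eq_of_le_of_coeff_ne_zero
    · rw [hF]
      apply natDegree_sum_le_of_forall_le
      intro k hk
      rw [mem_range] at hk
      refine le_trans (natDegree_C_mul_X_pow_le _ _) (by omega)
    · rw [hFcoeff n le_rfl]
      exact_mod_cast hfn
  have hFneg : NegRoots F := by
    intro w hw
    apply hroots w
    rw [← hw, hF, eval_finsetSum]
    simp
  -- the polynomial Q
  set q : ℕ → ℂ := fun k => F.coeff k * F.coeff (n - k) * (n.choose k : ℂ) with hq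
  set Q : ℂ[X] := ∑ k ∈ range (n + 1), C (q k) * X ^ k with hQ
  have hQcoeff : ∀ k ≤ n, Q.coeff k = q k := by
    intro k hk
    rw [hQ, finsetSum_coeff, sum_eq_single k]
    · simp
    · intro b _ hb
      rw [coeff_C_mul, coeff_X_pow, if_neg (fun h => hb h.symm), mul_zero]
    · intro h
      exact absurd (mem_range.mpr (by omega)) h
  have hQdeg : Q.natDegree ≤ n := by
    rw [hQ]
    apply natDegree_sum_le_of_forall_le
    intro k hk
    rw [mem_range] at hk
    refine le_trans (natDegree_C_mul_X_pow_le _ _) (by omega)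
  have hQneg : NegRoots Q := by
    intro w hw
    apply Q_neg hFneg w
    rw [hFdeg, ← hw, hQ, eval_finsetSum]
    simp [hq]
  have hQpal : ∀ k ≤ n, Q.coeff k = Q.coeff (n - k) := by
    intro k hk
    rw [hQcoeff k hk, hQcoeff (n - k) (by omega)]
    simp only [hq]
    rw [show n - (n - k) = k by omega, Nat.choose_symm hk]
    ring
  obtain ⟨a, ha⟩ := pal n Q hQdeg hQpal
  have hPeval : ∀ v : ℂ, P.eval v = 2 ^ (n % 2) * rf (v + 1) (n / 2 - 1 + n % 2) *
      T (n / 2 - 1) (derivative (∑ i ∈ range (n / 2 + 1), C (a i) * X ^ i)) v := by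
    intro v
    rw [← main_identity n hn a v, ← ha, hP, eval_finsetSum]
    unfold Lam
    rw [← sum_sub_distrib]
    apply sum_congr rfl
    intro k hk
    rw [mem_range] at hk
    rw [hQcoeff k (by omega), eval_mul, eval_C, eval_sub, eval_mul, eval_mul, eval_comp, eval_comp,
      rf_eval, rf_eval, rf_eval, rf_eval]
    simp only [hq, eval_add, eval_X, eval_one, eval_sub]
    rw [hFcoeff k (by omega), hFcoeff (n - k) (by omega)]
    push_cast
    ring
  set A : ℂ[X] := ∑ i ∈ range (n / 2 + 1), C (a i) * X ^ i with hA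
  have hAneg : NegRoots A := A_neg n a Q hQneg ha
  have hAdeg : A.natDegree ≤ n / 2 := by
    rw [hA]
    apply natDegree_sum_le_of_forall_le
    intro k hk
    rw [mem_range] at hk
    refine le_trans (natDegree_C_mul_X_pow_le _ _) (by omega)
  rcases Nat.eq_zero_or_pos A.natDegree with hA0 | hA0
  · exfalso
    apply hP0
    apply Polynomial.funext
    intro v
    rw [hPeval v]
    have : derivative A = 0 := by
      rw [eq_C_of_natDegree_eq_zero hA0]
      simp
    rw [this]
    simp [T]
  · have hBneg := hAneg.derivative hA0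
    have hBdeg : (derivative A).natDegree ≤ n / 2 - 1 := by
      rw [natDegree_derivative]
      omega
    obtain ⟨S, hS, hScard, hSB⟩ := hBneg.exists_multiset
    obtain ⟨c, hc, x, hx, hT⟩ := T_mesh (n / 2 - 1) S hS (by omega)
    rw [hPeval z] at hPz
    rcases mul_eq_zero.mp hPz with h1 | h1
    · rcases mul_eq_zero.mp h1 with h2 | h2
      · exfalso
        exact pow_ne_zero _ (by norm_num) h2
      · unfold rf at h2
        rw [prod_eq_zero_iff] at h2
        obtain ⟨i, _, hi⟩ := h2
        have hz1 : z = ((-(1 + i) : ℝ) : ℂ) := by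
          push_cast
          linear_combination hi
        rw [hz1]
        constructor
        · exact Complex.ofReal_im _
        · rw [Complex.ofReal_re]
          have : (0 : ℝ) ≤ i := Nat.cast_nonneg i
          linarith
    · have hz0 : z ≠ 0 := by
        rintro rfl
        apply T_at_zero _ _ _ h1
        intro h0
        have := (hBneg 0 (by rw [← coeff_zero_eq_eval_zero]; exact h0)).2
        simp at this
      rw [hSB, T_C_mul, hT] at h1
      rcases mul_eq_zero.mp h1 with h2 | h2
      · exact absurd (leadingCoeff_eq_zero.mp h2) hBneg.ne_zero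
      · rcases mul_eq_zero.mp h2 with h3 | h3
        · exfalso
          have : c = 0 := by exact_mod_cast h3
          linarith
        · rw [prod_eq_zero_iff] at h3
          obtain ⟨i, hi, hi0⟩ := h3
          rw [mem_range] at hi
          have hzx : z = (x i : ℂ) := by linear_combination hi0
          have hxi := (hx.1 i hi).1
          have hxi0 : x i ≠ 0 := by
            intro h
            apply hz0
            rw [hzx, h]
            simp
          rw [hzx]
          exact ⟨Complex.ofReal_im _, by
            rw [Complex.ofReal_re]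
            exact lt_of_le_of_ne hxi hxi0⟩

end Pool.Agent.Lib.MP_4c66eb_an
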