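import Pool.Agent.Lib.MP_4c66eb_an.Main

set_option autoImplicit false
open Polynomial Finset

namespace Pool.Agent.Lib.MP_4c66eb_an

/-- product of the factors `X + s`. -/
noncomputable def pp (S : Multiset ℝ) : ℝ[X] := (S.map fun s : ℝ => X + C s).prod

lemma pp_cons (s : ℝ) (S : Multiset ℝ) : pp (s ::ₘ S) = (X + C s) * pp S := by
  simp [pp]

lemma pp_monic (S : Multiset ℝ) : (pp S).Monic := by
  apply monic_multiset_prod_of_monic
  intro s _
  exact monic_X_add_C s

lemma pp_deg (S : Multiset ℝ) : (pp S).natDegree = Multiset.card S := by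
  unfold pp
  rw [natDegree_multiset_prod_of_monic]
  · simp [Multiset.map_map]
  · intro p hp
    rw [Multiset.mem_map] at hp
    obtain ⟨s, _, rfl⟩ := hp
    exact monic_X_add_C _

lemma pp_pos (S : Multiset ℝ) (hS : ∀ s ∈ S, 0 < s) : ∀ k ≤ Multiset.card S, 0 < (pp S).coeff k := by
  induction S using Multiset.induction_on with
  | empty =>
    intro k hk
    have : k = 0 := by simpa using hk
    subst this
    simp [pp]
  | cons s S ih =>
    intro k hk
    have ih' := ih (fun t ht => hS t (Multiset.mem_cons_of_mem ht))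
    have hs := hS s (Multiset.mem_cons_self s S)
    rw [pp_cons, add_mul, coeff_add, coeff_C_mul]
    rw [Multiset.card_cons] at hk
    have hnn : ∀ j, 0 ≤ (pp S).coeff j := by
      intro j
      rcases Nat.lt_or_ge (Multiset.card S) j with h | h
      · rw [coeff_eq_zero_of_natDegree_lt (by rw [pp_deg]; exact h)]
      · exact (ih' j h).le
    rcases k with _ | k
    · rw [coeff_X_mul_zero, zero_add]
      exact mul_pos hs (ih' 0 (Nat.zero_le _))
    · rw [coeff_X_mul]
      have := ih' k (by omega)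
      have h2 := mul_nonneg hs.le (hnn (k + 1))
      linarith

lemma pp_ineq (S : Multiset ℝ) (hS : ∀ s ∈ S, 0 < s) (h2 : 2 ≤ Multiset.card S) :
    (pp S).coeff 0 < (pp S).coeff 1 * (pp S).coeff (Multiset.card S - 1) := by
  obtain ⟨s, S', rfl⟩ : ∃ s S', S = s ::ₘ S' := by
    have : S ≠ 0 := by
      rintro rfl
      simp at h2
    obtain ⟨s, hs⟩ := Multiset.exists_mem_of_ne_zero this
    obtain ⟨S', hS'⟩ := Multiset.exists_cons_of_mem hs
    exact ⟨s, S', hS'⟩
  rw [Multiset.card_cons] at h2 ⊢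
  have hS'' : ∀ t ∈ S', 0 < t := fun t ht => hS t (Multiset.mem_cons_of_mem ht)
  have hs := hS s (Multiset.mem_cons_self s S')
  obtain ⟨m, hm⟩ : ∃ m, Multiset.card S' = m + 1 := ⟨Multiset.card S' - 1, by omega⟩
  have p0 := pp_pos S' hS'' 0 (Nat.zero_le _)
  have p1 := pp_pos S' hS'' 1 (by omega)
  have pm := pp_pos S' hS'' m (by omega)
  have pt : (pp S').coeff (m + 1) = 1 := by
    have := (pp_monic S').coeff_natDegree
    rwa [pp_deg, hm] at this
  rw [hm, Nat.add_sub_cancel, pp_cons, add_mul]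
  simp only [coeff_add, coeff_C_mul, coeff_X_mul_zero]
  rw [show (1 : ℕ) = 0 + 1 from rfl, coeff_X_mul, show (m + (0 + 1) : ℕ) = m + 1 from rfl,
    coeff_X_mul, pt]
  simp only [zero_add, mul_one]
  have e1 : 0 < s * (pp S').coeff 1 := mul_pos hs p1
  have e2 : 0 < (pp S').coeff 0 * (pp S').coeff m := mul_pos p0 pm
  have e3 : 0 < (s * (pp S').coeff 1) * ((pp S').coeff m + s) := mul_pos e1 (by linarith)
  nlinarith

/-- `f₁ f_{n-1} ≠ f₀ f_n`. -/
lemma f_ineq (n : ℕ) (hn : 2 ≤ n) (f : ℕ → ℝ) (hfn : f n ≠ 0) (F : ℂ[X])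
    (hF : ∀ k ≤ n, F.coeff k = (f k : ℂ)) (hdeg : F.natDegree = n) (hneg : NegRoots F) :
    f 1 * f (n - 1) ≠ f 0 * f n := by
  obtain ⟨S, hS, hc, hFS⟩ := hneg.exists_multiset
  rw [hdeg] at hc
  have hl : F.leadingCoeff = (f n : ℂ) := by
    rw [leadingCoeff, hdeg]
    exact hF n le_rfl
  have e : F = (C (f n) * pp S).map (algebraMap ℝ ℂ) := by
    rw [hFS, hl, Polynomial.map_mul, Polynomial.map_C]
    congr 1
    unfold pp
    rw [Polynomial.map_multiset_prod, Multiset.map_map]
    congr 1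
    apply Multiset.map_congr rfl
    intro s _
    simp
  have hk : ∀ k ≤ n, f k = f n * (pp S).coeff k := by
    intro k hk
    have h1 := hF k hk
    rw [e, coeff_map, coeff_C_mul] at h1
    simp only [Complex.coe_algebraMap] at h1
    exact_mod_cast h1.symm
  have hlt := pp_ineq S hS (by omega)
  rw [hc] at hlt
  intro h
  rw [hk 1 (by omega), hk (n - 1) (by omega), hk 0 (by omega)] at h
  have h3 : f n ^ 2 * ((pp S).coeff 1 * (pp S).coeff (n - 1) - (pp S).coeff 0) = 0 := by
    linear_combination h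
  rcases mul_eq_zero.mp h3 with h4 | h4
  · exact hfn (pow_eq_zero_iff (two_ne_zero) |>.mp h4)
  · linarith

/-- The polynomial `P_n`. -/
noncomputable def PP (n : ℕ) (f : ℕ → ℝ) : ℂ[X] := ∑ k ∈ Finset.range (n + 1),
  Polynomial.C (((f k * f (n - k) * (n.choose k : ℝ)) : ℝ) : ℂ) *
    (ascPochhammer ℂ k * ascPochhammer ℂ (n - k) -
      (ascPochhammer ℂ k).comp (Polynomial.X + 1) *
        (ascPochhammer ℂ (n - k)).comp (Polynomial.X - 1))

/-- The structure of `P_n`. -/
theorem structC (n : ℕ) (hn : 2 ≤ n) (f : ℕ → ℝ) (hfn : f n ≠ 0)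
    (hroots : ∀ z : ℂ, (∑ k ∈ Finset.range (n + 1), (f k : ℂ) * z ^ k) = 0 →
          z.im = 0 ∧ z.re < 0) :
    ∃ (c : ℂ) (x : ℕ → ℝ), c ≠ 0 ∧
      (∀ i < n / 2 - 1, x i < 0 ∧ -(((n : ℝ) - 1) / 2) ≤ x i) ∧
      (∀ i, i + 1 < n / 2 - 1 → x (i + 1) + 1 ≤ x i) ∧
      PP n f = C c * (∏ j ∈ range ((n - 1) / 2), (X + C ((j : ℂ) + 1))) *
        ∏ i ∈ range (n / 2 - 1), (X - C (x i : ℂ)) := by
  set P : ℂ[X] := PP n f with hP
  -- the polynomial F
  set F : ℂ[X] := ∑ k ∈ range (n + 1), C (f k : ℂ) * X ^ k with hF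
  have hFcoeff : ∀ k ≤ n, F.coeff k = (f k : ℂ) := by
    intro k hk
    rw [hF, finsetSum_coeff, sum_eq_single k]
    · simp
    · intro b _ hb
      rw [coeff_C_mul, coeff_X_pow, if_neg (fun h => hb h.symm), mul_zero]
    · intro h
      exact absurd (mem_range.mpr (by omega)) h
  have hFdeg : F.natDegree = n := by
    apply natDegree_eq_of_le_of_coeff_ne_zero
    · rw [hF]
      apply natDegree_sum_le_of_forall_le
      intro k hk
      rw [mem_range] at hk
      refine le_trans (natDegree_C_mul_X_pow_le _ _) (by omega)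
    · rw [hFcoeff n le_rfl]
      exact_mod_cast hfn
  have hFneg : NegRoots F := by
    intro w hw
    apply hroots w
    rw [← hw, hF, eval_finsetSum]
    simp
  -- the polynomial Q
  set q : ℕ → ℂ := fun k => F.coeff k * F.coeff (n - k) * (n.choose k : ℂ) with hq
  set Q : ℂ[X] := ∑ k ∈ range (n + 1), C (q k) * X ^ k with hQ
  have hQcoeff : ∀ k ≤ n, Q.coeff k = q k := by
    intro k hk
    rw [hQ, finsetSum_coeff, sum_eq_single k]
    · simp
    · intro b _ hb
      rw [coeff_C_mul, coeff_X_pow, if_neg (fun h => hb h.symm), mul_zero]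
    · intro h
      exact absurd (mem_range.mpr (by omega)) h
  have hQdeg : Q.natDegree ≤ n := by
    rw [hQ]
    apply natDegree_sum_le_of_forall_le
    intro k hk
    rw [mem_range] at hk
    refine le_trans (natDegree_C_mul_X_pow_le _ _) (by omega)
  have hQneg : NegRoots Q := by
    intro w hw
    apply Q_neg hFneg w
    rw [hFdeg, ← hw, hQ, eval_finsetSum]
    simp [hq]
  have hQpal : ∀ k ≤ n, Q.coeff k = Q.coeff (n - k) := by
    intro k hk
    rw [hQcoeff k hk, hQcoeff (n - k) (by omega)]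
    simp only [hq]
    rw [show n - (n - k) = k by omega, Nat.choose_symm hk]
    ring
  obtain ⟨a, ha⟩ := pal n Q hQdeg hQpal
  have hPeval : ∀ v : ℂ, P.eval v = 2 ^ (n % 2) * rf (v + 1) (n / 2 - 1 + n % 2) *
      T (n / 2 - 1) (derivative (∑ i ∈ range (n / 2 + 1), C (a i) * X ^ i)) v := by
    intro v
    rw [← main_identity n hn a v, ← ha, hP, PP, eval_finsetSum]
    unfold Lam
    rw [← sum_sub_distrib]
    apply sum_congr rfl
    intro k hk
    rw [mem_range] at hk
    rw [hQcoeff k (by omega), eval_mul, eval_C, eval_sub, eval_mul, eval_mul, eval_comp, eval_comp,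
      rf_eval, rf_eval, rf_eval, rf_eval]
    simp only [hq, eval_add, eval_X, eval_one, eval_sub]
    rw [hFcoeff k (by omega), hFcoeff (n - k) (by omega)]
    push_cast
    ring
  set A : ℂ[X] := ∑ i ∈ range (n / 2 + 1), C (a i) * X ^ i with hA
  have hAneg : NegRoots A := A_neg n a Q hQneg ha
  have hAdeg : A.natDegree ≤ n / 2 := by
    rw [hA]
    apply natDegree_sum_le_of_forall_le
    intro k hk
    rw [mem_range] at hk
    refine le_trans (natDegree_C_mul_X_pow_le _ _) (by omega)
  have hAcoeff : ∀ i ≤ n / 2, A.coeff i = a i := by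
    intro k hk
    rw [hA, finsetSum_coeff, sum_eq_single k]
    · simp
    · intro b _ hb
      rw [coeff_C_mul, coeff_X_pow, if_neg (fun h => hb h.symm), mul_zero]
    · intro h
      exact absurd (mem_range.mpr (by omega)) h
  have hA0 : 0 < A.natDegree := by
    by_contra hcon
    have hA0 : A.natDegree = 0 := by omega
    have hz : ∀ i ∈ range (n / 2 + 1), i ≠ 0 → a i = 0 := by
      intro i hi h0
      rw [mem_range] at hi
      rw [← hAcoeff i (by omega)]
      exact coeff_eq_zero_of_natDegree_lt (by omega)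
    have hQ1 : Q = C (a 0) * (1 + X) ^ n := by
      rw [ha, sum_eq_single 0]
      · simp
      · intro b hb h0
        rw [hz b hb h0]
        simp
      · intro h
        exact absurd (mem_range.mpr (Nat.succ_pos _)) h
    have c0 := hQcoeff 0 (by omega)
    have c1 := hQcoeff 1 (by omega)
    rw [hQ1, coeff_C_mul, coeff_one_add_X_pow] at c0 c1
    simp only [hq, Nat.choose_zero_right, Nat.cast_one, mul_one, Nat.sub_zero,
      Nat.choose_one_right] at c0 c1
    rw [hFcoeff 0 (by omega), hFcoeff n le_rfl] at c0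
    rw [hFcoeff 1 (by omega), hFcoeff (n - 1) (by omega)] at c1
    have hn0 : (n : ℂ) ≠ 0 := by
      exact_mod_cast (by omega : n ≠ 0)
    have c2 := mul_right_cancel₀ hn0 c1
    rw [c0] at c2
    exact f_ineq n hn f hfn F hFcoeff hFdeg hFneg (by exact_mod_cast c2.symm)
  have hBneg := hAneg.derivative hA0
  have hBdeg : (derivative A).natDegree ≤ n / 2 - 1 := by
    rw [natDegree_derivative]
    omega
  obtain ⟨S, hS, hScard, hSB⟩ := hBneg.exists_multiset
  obtain ⟨c, hc, x, hx, hT⟩ := T_mesh (n / 2 - 1) S hS (by omega)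
  have hhalf : n / 2 - 1 + n % 2 = (n - 1) / 2 := by omega
  refine ⟨2 ^ (n % 2) * ((derivative A).leadingCoeff * c), x, ?_, ?_, hx.2, ?_⟩
  · refine mul_ne_zero (pow_ne_zero _ (by norm_num)) (mul_ne_zero ?_ ?_)
    · exact fun h => hBneg.ne_zero (leadingCoeff_eq_zero.mp h)
    · exact_mod_cast hc.ne'
  · intro i hi
    obtain ⟨h1, h2⟩ := hx.1 i hi
    constructor
    · refine lt_of_le_of_ne h1 ?_
      intro h0
      have h3 : T (n / 2 - 1) (derivative A) 0 ≠ 0 := by
        apply T_at_zero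
        intro h4
        have := (hBneg 0 (by rw [← coeff_zero_eq_eval_zero]; exact h4)).2
        simp at this
      apply h3
      rw [hSB, T_C_mul, hT, prod_eq_zero (mem_range.mpr hi), mul_zero, mul_zero]
      rw [h0]; simp
    · refine le_trans ?_ h2
      have h3 : ((n / 2 - 1 : ℕ) : ℝ) ≤ (n : ℝ) / 2 - 1 := by
        have h4 : 2 * (n / 2 - 1) + 2 ≤ n := by omega
        have h5 : (2 : ℝ) * ((n / 2 - 1 : ℕ) : ℝ) + 2 ≤ n := by exact_mod_cast h4
        linarith
      linarith
  · apply Polynomial.funext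
    intro v
    have hTv : T (n / 2 - 1) (derivative A) v = (derivative A).leadingCoeff *
        ((c : ℂ) * ∏ i ∈ range (n / 2 - 1), (v - (x i : ℂ))) := by
      conv_lhs => rw [hSB]
      rw [T_C_mul, hT]
    rw [hPeval v, hTv]
    simp only [eval_mul, eval_C, eval_prod, eval_add, eval_sub, eval_X]
    rw [hhalf]
    unfold rf
    have e1 : ∏ i ∈ range ((n - 1) / 2), (v + 1 + (i : ℂ))
        = ∏ j ∈ range ((n - 1) / 2), (v + ((j : ℂ) + 1)) := by
      apply prod_congr rfl
      intro i _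
      ring
    rw [e1]
    ring

end Pool.Agent.Lib.MP_4c66eb_an
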